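import Pool.Agent.Q56.SQ.Defs
import Pool.Agent.Q28.HD.Main

/-!
# Correspondences whose zero-cycles are supported on surfaces, and algebraically trivial cycles of codimension two
-/

open CategoryTheory AlgebraicGeometry

universe u v w

namespace Pool.Agent.Q56.SQ

open Pool.Agent.H914 Pool.Agent.H914.VarClass Pool.Agent.H914.VarClass.Obj Pool.Agent.W492.BB
  Pool.Agent.W550.Corr Pool.Agent.TH133 Pool.Agent.Q28.LF Pool.Agent.Q28.HD

set_option linter.unusedSectionVars false

variable {k : Type u} [Field k] {𝒱 : VarClass k} {C : TheoryData.{u, v, 0} 𝒱 ℚ}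
  [hC : IsChowProj C] {X Y Z W T B D V : 𝒱.Obj} {i j l : ℤ}
  {K : Type w} [Field K] {H : WeilTheoryData.{u, v, w} C K} [hH : IsWeilProj H]

lemma cl_act0 {Γ : C.A (X.prod Y)} (h : H.cl Γ = 0) (a : C.A X) : H.cl (C.act Γ a) = 0 := by
  rw [cl_act, h]
  exact H.toTheoryData.act_zero _

lemma cl_act0' (Γ : C.A (X.prod Y)) {a : C.A X} (h : H.cl a = 0) : H.cl (C.act Γ a) = 0 := by
  rw [cl_act, h]
  exact TheoryData.act_map_zero _ _

lemma cl_tp0 {Γ : C.A (X.prod Y)} (h : H.cl Γ = 0) : H.cl (tp C Γ) = 0 := by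
  rw [cl_tp, h]
  exact map_zero _

/-- homologically trivial classes of codimension zero vanish -/
lemma gr0_zero {z : C.A B} (hz : z ∈ C.gr B 0) (h : H.cl z = 0) : z = 0 := by
  obtain ⟨q, rfl⟩ := hC.gr_zero _ _ hz
  have h4 : H.cl ((algebraMap ℚ (C.A B)) q) = 0 := by
    rw [Algebra.algebraMap_eq_smul_one]; exact h
  have hq : q = 0 := by
    by_contra hne
    have h5 : (1 : H.A B) = 0 := by
      rw [← map_one H.cl]
      have h6 : (1 : C.A B) = (algebraMap ℚ _ q⁻¹) * (algebraMap ℚ _ q) := by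
        rw [← map_mul, inv_mul_cancel₀ hne, map_one]
      rw [h6, map_mul, h4, mul_zero]
    exact hH.one_ne_zero _ h5
  rw [hq, zero_smul]

variable (H) in
/-- The algebraically trivial classes of codimension `i` on `X`. -/
def algTrivial (X : 𝒱.Obj) (i : ℤ) : Submodule ℚ (C.A X) :=
  Submodule.span ℚ {y | ∃ (T : 𝒱.Obj) (c : C.A T) (Γ : C.A (T.prod X)), T.dim = 1 ∧ IsHomTrivial H 1 c ∧
    C.Deg i Γ ∧ y = C.act Γ c}

/-- Correspondences preserve algebraically trivial classes. -/
lemma act_alg {Φ : C.A (X.prod Y)} {e : ℤ} (hΦ : Φ ∈ C.gr (X.prod Y) e) {l l' : ℤ}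
    (hl : l + e - X.dim = l') {y : C.A X} (hy : y ∈ algTrivial H X l) : C.act Φ y ∈ algTrivial H Y l' := by
  rw [algTrivial] at hy
  induction hy using Submodule.span_induction with
  | mem y hy =>
    obtain ⟨T, c, Γ, hT, hc, hΓ, rfl⟩ := hy
    rw [← C.act_comp]
    refine Submodule.subset_span ⟨T, c, C.comp Γ Φ, hT, hc, ?_, rfl⟩
    have := comp_memI (C := C) hΓ hΦ
    rw [hl] at this
    exact this
  | zero => rw [C.act_map_zero]; exact Submodule.zero_mem _
  | add x z _ _ hx hz => rw [act_map_add]; exact Submodule.add_mem _ hx hz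
  | smul q x _ hx => rw [act_map_smul]; exact Submodule.smul_mem _ _ hx

/-- homologically trivial classes on a variety of dimension at most two are algebraically trivial -/
lemma alg_of_surface (hK : KnownFacts H) (hB : B.dim ≤ 2) {z : C.A B} {e : ℤ} (hz : z ∈ C.gr B e) (h : H.cl z = 0) :
    z ∈ algTrivial H B e := by
  rcases lt_or_ge e 0 with h0 | h0
  · rw [C.gr_neg _ _ h0, Submodule.mem_bot] at hz
    rw [hz]; exact Submodule.zero_mem _
  rcases lt_or_ge (B.dim : ℤ) e with h2 | h2
  · rw [hC.gr_top _ _ _ hz h2]; exact Submodule.zero_mem _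
  rcases eq_or_lt_of_le h0 with h1 | h1
  · subst h1
    rw [gr0_zero (H := H) hz h]; exact Submodule.zero_mem _
  · refine hK.trivial _ _ _ ?_ ⟨hz, h⟩
    have : (B.dim : ℤ) ≤ 2 := by exact_mod_cast hB
    omega

lemma through_induction {P : C.A (X.prod Y) → Prop} {Γ : C.A (X.prod Y)} (hΓ : Γ ∈ throughSurfaces C X Y i)
    (h0 : P 0) (hadd : ∀ x y, P x → P y → P (x + y)) (hsmul : ∀ (q : ℚ) x, P x → P (q • x))
    (hcur : ∀ (B : 𝒱.Obj) (j : ℤ) (α : C.A (X.prod B)) (β : C.A (B.prod Y)), B.dim ≤ 2 →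
      α ∈ C.gr (X.prod B) j → β ∈ C.gr (B.prod Y) (i + B.dim - j) → P (C.comp α β)) : P Γ := by
  rw [throughSurfaces] at hΓ
  induction hΓ using Submodule.span_induction with
  | mem x hx =>
    obtain ⟨B, j, α, β, hB, hα, hβ, rfl⟩ := hx
    exact hcur B j α β hB hα hβ
  | zero => exact h0
  | add x y _ _ hx hy => exact hadd x y hx hy
  | smul a x _ hx => exact hsmul a x hx

lemma mem_through (hB : B.dim ≤ 2) {α : C.A (X.prod B)} {β : C.A (B.prod Y)}
    (hα : α ∈ C.gr (X.prod B) j) (hβ : β ∈ C.gr (B.prod Y) (i + B.dim - j)) :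
    C.comp α β ∈ throughSurfaces C X Y i := Submodule.subset_span ⟨B, j, α, β, hB, hα, hβ, rfl⟩

lemma through_after {F κ : C.A (W.prod W)} (hF : F ∈ C.gr (W.prod W) W.dim) (hκ : κ ∈ throughSurfaces C W W W.dim) :
    C.comp F κ ∈ throughSurfaces C W W W.dim := by
  refine through_induction (P := fun κ => C.comp F κ ∈ throughSurfaces C W W W.dim) hκ ?_ ?_ ?_ fun B j α β hB hα hβ => ?_
  · rw [comp_zero]; exact Submodule.zero_mem _
  · intro x y hx hy; rw [comp_add]; exact Submodule.add_mem _ hx hy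
  · intro q x hx; rw [comp_smul']; exact Submodule.smul_mem _ _ hx
  · rw [← comp_assoc]
    refine mem_through (j := j) hB ?_ hβ
    have := comp_memI hF hα
    have e : (W.dim : ℤ) + j - W.dim = j := by ring
    rwa [e] at this

/-- **Key lemma.** If the correspondence `F` of `W` agrees on zero-cycles with one which factors through surfaces, its
transpose maps homologically trivial classes of codimension two to algebraically trivial ones. -/
theorem key (hK : KnownFacts H) {F κ : C.A (W.prod W)} (hF : F ∈ C.gr (W.prod W) W.dim)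
    (hκ : κ ∈ throughSurfaces C W W W.dim) (hz : ∀ u : C.A W, u ∈ C.gr W W.dim → C.act F u = C.act κ u)
    {y : C.A W} (hy : y ∈ C.gr W 2) (h0 : H.cl y = 0) : C.act (tp C F) y ∈ algTrivial H W 2 := by
  have hκm : κ ∈ C.gr (W.prod W) W.dim := by
    refine through_induction (P := fun κ => κ ∈ C.gr (W.prod W) W.dim) hκ (Submodule.zero_mem _)
      (fun _ _ => Submodule.add_mem _) (fun q _ => Submodule.smul_mem _ q) fun B j α β hB hα hβ => ?_
    have := comp_memI hα hβ
    have e : j + (W.dim + B.dim - j) - (B.dim : ℤ) = W.dim := by ring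
    rwa [e] at this
  have h1 := hK.blochSrinivas W W W.dim (F - κ) (Submodule.sub_mem _ hF hκm) fun z hz' => by
    rw [C.act_sub, hz z hz', sub_self]
  have h2 : C.act (tp C (F - κ)) y ∈ algTrivial H W 2 := by
    clear hz
    generalize F - κ = G at h1
    induction h1 using Submodule.span_induction with
    | mem x hx =>
      obtain ⟨D, β, α, hD, hβ, hα, rfl⟩ := hx
      have hα' : α ∈ C.gr (D.prod W) ((W.dim : ℤ) - 1) := hα
      have hβ' : β ∈ C.gr (W.prod D) W.dim := hβ
      rw [tp_comp C (ch_comm C), C.act_comp]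
      have h3 := act_memI (tp_mem C hα') hy
      have e : (W.dim : ℤ) - 1 + 2 - W.dim = 1 := by ring
      rw [e] at h3
      refine act_alg (tp_mem C hβ') ?_ (hK.trivial _ _ _ (Or.inl rfl) ⟨h3, cl_act0' _ h0⟩)
      omega
    | zero => rw [tp_zero, C.act_zero]; exact Submodule.zero_mem _
    | add x z _ _ hx hz => rw [tp_add, C.act_add]; exact Submodule.add_mem _ hx hz
    | smul q x _ hx => rw [tp_smul, Pool.Agent.Q28.LF.act_smul']; exact Submodule.smul_mem _ _ hx
  have h3 : C.act (tp C κ) y ∈ algTrivial H W 2 := by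
    refine through_induction (P := fun κ => C.act (tp C κ) y ∈ algTrivial H W 2) hκ ?_ ?_ ?_ fun B j α β hB hα hβ => ?_
    · rw [tp_zero, C.act_zero]; exact Submodule.zero_mem _
    · intro x y hx hy; rw [tp_add, C.act_add]; exact Submodule.add_mem _ hx hy
    · intro q x hx; rw [tp_smul, Pool.Agent.Q28.LF.act_smul']; exact Submodule.smul_mem _ _ hx
    · rw [tp_comp C (ch_comm C), C.act_comp]
      have h4 := act_memI (tp_mem C hβ) hy
      refine act_alg (tp_mem C hα) ?_ (alg_of_surface hK hB h4 (cl_act0' _ h0))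
      ring
  have h4 : C.act (tp C F) y = C.act (tp C (F - κ)) y + C.act (tp C κ) y := by
    rw [← C.act_add, ← tp_add, sub_add_cancel]
  rw [h4]
  exact Submodule.add_mem _ h2 h3

end Pool.Agent.Q56.SQ
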