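import Pool.Agent.Q56.SQ.Main

/-!
# Squares of zero-cycles: surfaces without transcendental cohomology
-/

open CategoryTheory AlgebraicGeometry

universe u v w

namespace Pool.Agent.Q56.SQ

open Pool.Agent.H914 Pool.Agent.H914.VarClass Pool.Agent.H914.VarClass.Obj Pool.Agent.W492.BB
  Pool.Agent.W550.Corr Pool.Agent.TH133 Pool.Agent.Q28.LF Pool.Agent.Q28.HD

set_option linter.unusedSectionVars false

variable {k : Type u} [Field k] {𝒱 : VarClass k} {C : TheoryData.{u, v, 0} 𝒱 ℚ}
  [hC : IsChowProj C] {X Y Z W T B D V : 𝒱.Obj} {i j l : ℤ}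
  {K : Type w} [Field K] {H : WeilTheoryData.{u, v, w} C K} [hH : IsWeilProj H]

/-- the push-forward of an external product to the first factor -/
lemma push_fst_ext {a : C.A X} {b : C.A Y} {q : ℚ} (hb : HasDegree C b q) :
    C.push (fst X Y) (C.ext a b) = q • a := by
  rw [TheoryData.ext, C.proj_left, (hb X).2, mul_smul_comm, mul_one]

lemma push_snd_ext {a : C.A X} {b : C.A Y} {q : ℚ} (ha : HasDegree C a q) :
    C.push (snd X Y) (C.ext a b) = q • b := by
  rw [TheoryData.ext, C.proj_right, (ha Y).1, smul_mul_assoc, one_mul]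

lemma exchange_eq (u : C.A (X.prod X)) : exchange u = tp C u := (tp_eq_push C u).symm

lemma differenceSquare_ext {a b : C.A X} {q r : ℚ} (ha : HasDegree C a q) (hb : HasDegree C b r) :
    differenceSquare (C.ext a b) = C.push (Obj.lift (𝟙 X) (𝟙 X)) (r • a + q • b) - C.ext a b - C.ext b a := by
  rw [differenceSquare, exchange_eq, tp_ext]
  change C.push _ (C.push (fst X X) (C.ext a b) + C.push (snd X X) (C.ext a b)) - _ - _ = _
  rw [push_fst_ext hb, push_snd_ext ha]

lemma differenceSquare_smul (q : ℚ) (u : C.A (X.prod X)) :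
    differenceSquare (q • u) = q • differenceSquare u := by
  rw [differenceSquare, differenceSquare, exchange_eq, exchange_eq, tp_smul]
  change C.push _ (C.push _ (q • u) + C.push _ (q • u)) - _ - _ =
    q • (C.push _ (C.push _ u + C.push _ u) - _ - _)
  rw [map_smul, map_smul, ← smul_add, map_smul, smul_sub, smul_sub]

/-- an external product factors through the surface `X` -/
lemma ext_mem_through (hX2 : X.dim ≤ 2) {a : C.A W} {b : C.A T} (ha : a ∈ C.gr W j) (hb : b ∈ C.gr T (i - j)) :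
    C.ext a b ∈ throughSurfaces C W T i := by
  obtain ⟨o, ho, ho1, ho2⟩ := hC.exists_deg_one X
  have hoD : HasDegree C o 1 :=
    fun Z => ⟨by rw [one_smul]; exact ho2 Z, by rw [one_smul]; exact ho1 Z⟩
  have h1 : C.comp (C.ext a (1 : C.A X)) (C.ext o b) = C.ext a b := by
    rw [comp_ext_ext (q := 1) (by rw [one_mul]; exact hoD), one_smul]
  rw [← h1]
  have h2 := ext_mem' (C := C) ha (C.one_mem X)
  rw [add_zero] at h2
  refine mem_through hX2 h2 ?_
  have h3 := ext_mem' (C := C) ho hb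
  have e : (i : ℤ) + X.dim - j = X.dim + (i - j) := by ring
  rw [e]; exact h3

lemma act_neg' (Γ : C.A (X.prod Y)) (x : C.A X) : C.act (-Γ) x = - C.act Γ x := by
  have := C.act_sub 0 Γ x
  rw [zero_sub, C.act_zero, zero_sub] at this
  exact this

/-- **Main theorem for surfaces with `p_g = q = 0`.** -/
theorem bloch (hK : KnownFacts H) {π : C.A (X.prod X)}
    (hπ : IsPhantom H X π) (hX2 : X.dim = 2) :
    BlochEquivalences H X := by
  unfold BlochEquivalences
  have e2 : ((X.dim : ℕ) : ℤ) = 2 := by rw [hX2]; rfl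
  have e4 : (((X.prod X).dim : ℕ) : ℤ) = 4 := by rw [dim_prod, hX2]; rfl
  have hπ2 : π ∈ C.gr (X.prod X) 2 := by rw [← e2]; exact hπ.deg
  -- the image of zero-cycles under the phantom part
  have hdeg : ∀ z : C.A X, z ∈ C.gr X 2 → IsHomTrivial H X.dim (C.act π z) := by
    intro z hz
    rw [← e2] at hz
    have h1 : C.act π z ∈ C.gr X X.dim := act_mem0 C hπ.deg hz
    exact ⟨h1, cl_act0 hπ.hom z⟩
  have hfin : (∃ κ ∈ throughSurfaces C (X.prod X) (X.prod X) 4, ∀ z w : C.A X, z ∈ C.gr X 2 → w ∈ C.gr X 2 →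
      C.ext (C.act π z) (C.act π w) + C.ext (C.act π w) (C.act π z) = C.act κ (C.ext z w)) →
      dg C X ∈ split C X X 2 := by
    rintro ⟨κ, hκ, h⟩
    obtain ⟨N, hN⟩ := square_nilpotent hK hX2 hπ2 hπ.hom hκ h
    have h1 : Unip (power π 2) := unip_power hπ.splits 2
    have h2 := unip_power (h1.comp h1.tp) N
    rw [hN] at h2
    have := split_of_unip_zero h2
    rwa [e2] at this
  have h20 : dg C X ∈ split C X X 2 → ∀ z : C.A X, ZeroCycle C X z → z = 0 := by
    intro h z hz
    have := split_act_zero h hz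
    rwa [act_dg] at this
  tfae_have 2 → 1 := by
    intro h z hz
    exact h20 h z ⟨hz.1, hasDegree_zero_of_cl (H := H) hz.1 hz.2⟩
  tfae_have 1 → 3 := by
    intro h z hz
    rw [h z hz]
    change C.pull _ 0 * _ = 0
    rw [map_zero, zero_mul]
  tfae_have 3 → 5 := by
    intro h
    refine ⟨0, Submodule.zero_mem _, ?_⟩
    rintro _ ⟨z, hz, rfl⟩
    rw [h z hz, C.act_zero]
  tfae_have 5 → 2 := by
    rintro ⟨κ, hκ, h⟩
    rw [e4] at hκ
    exact hfin (polarize hπ.deg hX2 hκ fun z hz => h _ ⟨_, hdeg z hz, rfl⟩)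
  -- consequences of (1)
  have hone : (∀ z : C.A X, ZeroCycle C X z → z = 0) → ∃ o : C.A X, o ∈ C.gr X X.dim ∧ HasDegree C o 1 ∧
      C.push (Obj.lift (𝟙 X) (𝟙 X)) o = C.ext o o ∧
      ∀ u ∈ C.gr (X.prod X) (X.prod X).dim, ∃ q : ℚ, u = q • C.ext o o := by
    intro h
    obtain ⟨o, ho, ho1, ho2⟩ := hC.exists_deg_one X
    have hoD : HasDegree C o 1 :=
      fun Z => ⟨by rw [one_smul]; exact ho2 Z, by rw [one_smul]; exact ho1 Z⟩
    have ho' : o ∈ C.gr X X.dim := ho
    have hzero : ∀ x ∈ C.gr X X.dim, ∃ q : ℚ, x = q • o := by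
      intro x hx
      obtain ⟨q, hq⟩ := exists_hasDegree (C := C) hx
      refine ⟨q, ?_⟩
      have h1 : ZeroCycle C X (x - q • o) := by
        refine ⟨Submodule.sub_mem _ hx (Submodule.smul_mem _ q ho'), ?_⟩
        have := hasDegree_sub hq (hasDegree_smul q hoD)
        rwa [mul_one, sub_self] at this
      exact sub_eq_zero.1 (h _ h1)
    have hall : ∀ v ∈ C.gr (X.prod X) (X.prod X).dim, ∃ q : ℚ, v = q • C.ext o o := by
      intro v hv
      refine gr_top_points hK (P := fun v => ∃ q : ℚ, v = q • C.ext o o) ⟨0, by rw [zero_smul]⟩ ?_ ?_ ?_ hv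
      · rintro x y ⟨q, rfl⟩ ⟨r, rfl⟩; exact ⟨q + r, by rw [add_smul]⟩
      · rintro r x ⟨q, rfl⟩; exact ⟨r * q, by rw [mul_smul]⟩
      · intro x y hx hy
        obtain ⟨q, rfl⟩ := hzero x hx
        obtain ⟨r, rfl⟩ := hzero y hy
        refine ⟨q * r, ?_⟩
        simp only [TheoryData.ext, map_smul]
        rw [smul_mul_smul_comm]
    refine ⟨o, ho', hoD, ?_, hall⟩
    have h1 : C.push (Obj.lift (𝟙 X) (𝟙 X)) o ∈ C.gr (X.prod X) (X.prod X).dim := by
      have := C.push_mem (Obj.lift (𝟙 X) (𝟙 X)) ho'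
      have e : (X.dim : ℤ) + 1 * (((X.prod X).dim : ℤ) - X.dim) = (X.prod X).dim := by ring
      rwa [e] at this
    obtain ⟨q, hq⟩ := hall _ h1
    have h2 := congrArg (C.push (fst X X)) hq
    rw [← C.push_comp, lift_fst, C.push_id, map_smul, push_fst_ext hoD, one_smul] at h2
    have h3 : HasDegree C o q := by
      have := hasDegree_smul q hoD
      rw [← h2, mul_one] at this
      exact this
    have h4 := hasDegree_unique (H := H) h3 hoD
    rw [hq, h4, one_smul]
  tfae_have 2 → 4 := by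
    intro h u hu
    obtain ⟨o, ho, hoD, hδ, hall⟩ := hone (h20 h)
    obtain ⟨q, rfl⟩ := hall u hu
    rw [differenceSquare_smul, differenceSquare_ext hoD hoD, one_smul, map_add, hδ]
    have : C.ext o o + C.ext o o - C.ext o o - C.ext o o = 0 := by abel
    rw [this, smul_zero]
  tfae_have 4 → 3 := by
    intro h z hz
    have h1 := h (C.ext z z) (by
      have := ext_mem' (C := C) hz.1 hz.1
      rw [e2] at this
      change _ ∈ C.gr _ _
      rw [e4]
      exact this)
    have hz0 := hasDegree_zero_of_cl (H := H) hz.1 hz.2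
    rw [differenceSquare_ext hz0 hz0, zero_smul, add_zero, map_zero, zero_sub, ← neg_add', neg_eq_zero,
      ← two_smul ℚ] at h1
    exact (smul_eq_zero.1 h1).resolve_left (by norm_num)
  tfae_have 2 → 7 := by
    intro h
    obtain ⟨o, ho, hoD, hδ, hall⟩ := hone (h20 h)
    have hoo : C.ext o o ∈ C.gr (X.prod X) 4 := by
      have := ext_mem' (C := C) ho ho
      rw [e2] at this
      exact this
    refine ⟨C.ext (1 : C.A (X.prod X)) (C.ext o o), ext_mem_through (X := X) (by omega) (C.one_mem _)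
      (by rw [sub_zero, e4]; exact hoo), fun u hu' => ?_⟩
    obtain ⟨q, rfl⟩ := hall u hu'
    -- the degree of `o × o` is one
    obtain ⟨r, hr⟩ := exists_hasDegree (C := C) (x := C.ext o o) (by rw [e4]; exact hoo)
    have h1 : r = 1 := by
      have h2 := (hr X).1
      have h3 : C.pull (fst (X.prod X) X) (C.ext o o) =
          C.pull (fst (X.prod X) X) (C.pull (fst X X) o) * C.pull (fst (X.prod X) X) (C.pull (snd X X) o) := by
        rw [TheoryData.ext, map_mul]
      -- push forward in two steps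
      have e5 : snd (X.prod X) X = t23 X X X ≫ snd X X := by rw [t23_snd]
      have e6 : C.pull (fst (X.prod X) X) (C.pull (snd X X) o) = C.pull (t23 X X X) (C.pull (fst X X) o) := by
        rw [← C.pull_comp, ← C.pull_comp, t23_fst]
      have e7 : C.push (t23 X X X) (C.pull (fst (X.prod X) X) (C.pull (fst X X) o)) = 1 := by
        have h8 : C.push (prodMap (snd X X) (𝟙 X)) (C.pull (fst (X.prod X) X) (C.pull (fst X X) o)) =
            C.pull (fst X X) (C.push (snd X X) (C.pull (fst X X) o)) := (C.base_fst _ _ _).symm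
        change C.push (prodMap (snd X X) (𝟙 X)) _ = 1
        rw [h8, (hoD X).1, one_smul, map_one]
      rw [h3, e6, e5, C.push_comp, C.proj_right, e7, one_mul, (hoD X).1, one_smul] at h2
      by_contra hne
      have h9 : (1 - r) • (1 : C.A X) = 0 := by rw [sub_smul, one_smul, ← h2, sub_self]
      have h10 : (1 : C.A X) = 0 := by
        rw [← one_smul ℚ (1 : C.A X), ← inv_mul_cancel₀ (sub_ne_zero.2 (Ne.symm hne)), mul_smul, h9, smul_zero]
      have h11 : (1 : H.A X) = 0 := by rw [← map_one H.cl, h10, map_zero]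
      exact hH.one_ne_zero X h11
    rw [h1] at hr
    rw [act_map_smul, act_ext' (q := 1) (by rw [one_mul]; exact hr), one_smul]
  tfae_have 7 → 8 := by
    intro h
    refine ⟨X.prod X, 𝟙 _, ⟨1, 1, ?_, one_ne_zero, ?_⟩, h⟩
    · rw [sub_self]; exact C.one_mem _
    · change C.push (𝟙 _) _ = _
      rw [C.push_id, one_smul]
  tfae_have 8 → 7 := by
    rintro ⟨Y, f, hf, hY⟩
    exact supported_of_onto hf hY
  tfae_have 7 → 6 := by
    rintro ⟨κ, hκ, h⟩
    refine ⟨κ, hκ, ?_⟩
    rintro _ ⟨u, hu, rfl⟩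
    have hu' : u ∈ C.gr (X.prod X) (X.prod X).dim := hu
    refine h _ (Submodule.add_mem _ hu' ?_)
    rw [exchange_eq]; exact tp_mem C hu'
  tfae_have 6 → 2 := by
    rintro ⟨κ, hκ, h⟩
    refine hfin ⟨C.comp (signSq C 1 π) κ, ?_, fun z w hz hw => ?_⟩
    · rw [← e4]
      exact through_after (signSq_mem 1 hπ.deg) hκ
    · have h1 := hdeg z hz
      have h2 := hdeg w hw
      have h3 := h _ ⟨C.ext (C.act π z) (C.act π w), by
        have := ext_mem' (C := C) h1.1 h2.1
        rw [e2] at this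
        change _ ∈ C.gr _ _
        rw [e4]
        exact this, rfl⟩
      rw [exchange_eq, tp_ext] at h3
      rw [C.act_comp, act_signSq, act_tens_ext', tp_ext, one_smul]
      exact h3
  tfae_finish

lemma comp_unip_mem {f A : C.A (X.prod X)} (h : Unip f) (hA : A ∈ C.gr (X.prod X) X.dim) :
    A - C.comp (C.comp f A) (tp C f) ∈ split C X X X.dim := by
  have e1 : (X.dim : ℤ) + X.dim - X.dim = X.dim := by ring
  have h2 : A - C.comp f A ∈ split C X X X.dim := by
    have h3 := split_comp h hA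
    rw [e1, sub_comp, dg_comp] at h3
    exact h3
  have h4 : C.comp f A ∈ C.gr (X.prod X) X.dim := by
    have := Submodule.sub_mem _ hA (split_le h2)
    rwa [sub_sub_cancel] at this
  have h5 : C.comp f A - C.comp (C.comp f A) (tp C f) ∈ split C X X X.dim := by
    have h6 : dg C X - tp C f ∈ split C X X X.dim := h.tp
    have h7 := comp_split h6 h4
    rw [e1, comp_sub, comp_dg] at h7
    exact h7
  have := Submodule.add_mem _ h2 h5
  rwa [sub_add_sub_cancel] at this

/-- **Commuting zero-cycles on surfaces with `p_g = q = 0`.** -/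
theorem commuting (hK : KnownFacts H) {π : C.A (X.prod X)}
    (hπ : IsPhantom H X π) (hX2 : X.dim = 2) : CommutatorLaw H X := by
  rintro ⟨κ, hκ, h⟩ γ hγ
  have e2 : ((X.dim : ℕ) : ℤ) = 2 := by rw [hX2]; rfl
  have e4 : (((X.prod X).dim : ℕ) : ℤ) = 4 := by rw [dim_prod, hX2]; rfl
  have hγ' : γ ∈ C.gr (X.prod X) 2 := hγ
  have hdeg : ∀ z : C.A X, z ∈ C.gr X 2 → IsHomTrivial H X.dim (C.act π z) := by
    intro z hz
    rw [← e2] at hz
    have h1 : C.act π z ∈ C.gr X X.dim := act_mem0 C hπ.deg hz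
    exact ⟨h1, cl_act0 hπ.hom z⟩
  have hπ2 : π ∈ C.gr (X.prod X) 2 := by rw [← e2]; exact hπ.deg
  have hκ' : C.comp (signSq C (-1) π) κ ∈ throughSurfaces C (X.prod X) (X.prod X) 4 := by
    rw [← e4]
    exact through_after (signSq_mem (-1) hπ.deg) hκ
  have h1 := square (ε := -1) hK hX2 hπ2 hπ.hom (by norm_num) hκ' (fun z w hz hw => by
    rw [C.act_comp, act_signSq, act_tens_ext', tp_ext, neg_smul, one_smul, ← sub_eq_add_neg]
    exact h _ ⟨_, _, hdeg z hz, hdeg w hw, rfl⟩) hγ'
  rw [neg_smul, one_smul, ← sub_eq_add_neg] at h1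
  have h2 : Unip (power π 2) := unip_power hπ.splits 2
  have h3 : γ - tp C γ ∈ C.gr (X.prod X) X.dim := by
    rw [e2]; exact Submodule.sub_mem _ hγ' (tp_mem C hγ')
  have h4 := comp_unip_mem h2 h3
  rw [e2] at h4
  exact ⟨_, h4, by rw [sub_sub_cancel]; exact h1⟩

/-- **Squares.** -/
theorem squareLaw (hK : KnownFacts H) (hX2 : X.dim = 2) {f : C.A (X.prod X)} (hf : C.Deg 2 f) (h0 : H.cl f = 0)
    {ε : ℚ} (hε : ε = 1 ∨ ε = -1) : SquareLaw H f ε := by
  rintro ⟨κ, hκ, h⟩
  have e2 : ((X.dim : ℕ) : ℤ) = 2 := by rw [hX2]; rfl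
  have e4 : (((X.prod X).dim : ℕ) : ℤ) = 4 := by rw [dim_prod, hX2]; rfl
  have hf' : f ∈ C.gr (X.prod X) X.dim := by rw [e2]; exact hf
  have h1 : ε * ε = 1 := by rcases hε with rfl | rfl <;> norm_num
  have hκ' : C.comp (signSq C ε f) κ ∈ throughSurfaces C (X.prod X) (X.prod X) 4 := by
    rw [← e4]
    exact through_after (signSq_mem ε hf') hκ
  have hz : ∀ z w : C.A X, z ∈ C.gr X 2 → w ∈ C.gr X 2 →
      C.ext (C.act f z) (C.act f w) + ε • C.ext (C.act f w) (C.act f z) =
        C.act (C.comp (signSq C ε f) κ) (C.ext z w) := by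
    intro z w hz hw
    rw [C.act_comp, act_signSq, act_tens_ext', tp_ext]
    refine h _ ⟨z, w, ?_, ?_, rfl⟩
    · change z ∈ C.gr _ _
      rw [e2]; exact hz
    · change w ∈ C.gr _ _
      rw [e2]; exact hw
  refine ⟨fun Γ hΓ => square hK hX2 hf h0 h1 hκ' hz hΓ, ?_⟩
  rintro rfl
  have h2 : ∃ N, power (sandwich f f (dg C X)) N = 0 := by
    obtain ⟨N, hN⟩ := square_nilpotent hK hX2 hf h0 hκ' fun z w hz' hw' => by
      have := hz z w hz' hw'
      rwa [one_smul] at this
    exact ⟨N, by rw [sandwich, comp_dg]; exact hN⟩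
  refine ⟨h2, fun hs => ?_⟩
  obtain ⟨N, hN⟩ := h2
  rw [sandwich, comp_dg, tp_power, hs, power_power, power_mul] at hN
  exact ⟨_, hN⟩

/-- **Pairs.** -/
theorem pairLaw (hK : KnownFacts H) {f : C.A (X.prod X)} {g : C.A (Y.prod Y)} (hf : C.Deg X.dim f)
    (hg : C.Deg Y.dim g) (h0 : H.cl f = 0) : PairLaw H f g := by
  rintro ⟨κ, hκ, h⟩ Γ hΓ
  refine pair hK hf hg h0 (through_after (tens_self_mem hf hg) hκ) (fun z w hz hw => ?_) hΓ
  rw [C.act_comp, act_tens_ext']
  exact h _ ⟨z, w, hz, hw, rfl⟩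

end Pool.Agent.Q56.SQ
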