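import Pool.Agent.Q28.HD.Defs

/-!
# Squares of zero-cycles: definitions
-/

open CategoryTheory AlgebraicGeometry

universe u v w

namespace Pool.Agent.Q56.SQ

open Pool.Agent.H914 Pool.Agent.H914.VarClass Pool.Agent.H914.VarClass.Obj Pool.Agent.W492.BB
  Pool.Agent.W550.Corr Pool.Agent.TH133 Pool.Agent.Q28.LF Pool.Agent.Q28.HD

variable {k : Type u} [Field k] {𝒱 : VarClass k} {C : TheoryData.{u, v, 0} 𝒱 ℚ}

/-- The iterates `Δ`, `f`, `f ∘ f`, … of a self-correspondence. -/
noncomputable def power {X : 𝒱.Obj} (f : C.A (X.prod X)) : ℕ → C.A (X.prod X)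
  | 0 => dg C X
  | m + 1 => C.comp (power f m) f

/-- The self-correspondence `f` is nilpotent. -/
def IsNilp {X : 𝒱.Obj} (f : C.A (X.prod X)) : Prop := ∃ N, power f N = 0

/-- The external product `z × w`. -/
noncomputable def cross {X Y : 𝒱.Obj} (z : C.A X) (w : C.A Y) : C.A (X.prod Y) :=
  C.mul (C.up (fst X Y) z) (C.up (snd X Y) w)

/-- The exchange `τ_*` of the factors of `X × X` on cycles. -/
noncomputable def exchange {X : 𝒱.Obj} (u : C.A (X.prod X)) : C.A (X.prod X) :=
  C.down (Obj.lift (snd X X) (fst X X)) u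

/-- The linear map `u ↦ Δ_* p_1_* u + Δ_* p_2_* u - u - τ_* u` on the zero-cycles of `X × X`: for a point `u = (x, y)` it
is `(x, x) + (y, y) - (x, y) - (y, x)`, which is `(x - y) × (x - y)`. The zero-cycles of `X × X` are combinations of
points. -/
noncomputable def differenceSquare {X : 𝒱.Obj} (u : C.A (X.prod X)) : C.A (X.prod X) :=
  C.down (Obj.lift (𝟙 X) (𝟙 X)) (C.down (fst X X) u + C.down (snd X X) u) - u - exchange u

/-- The class `Γ` of codimension `i` on `X × Y` is a sum of external products. -/
def IsSplit {X Y : 𝒱.Obj} (i : ℤ) (Γ : C.A (X.prod Y)) : Prop := Γ ∈ split C X Y i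

/-- The class `z` on `X` is a zero-cycle. -/
def IsZeroCycle {X : 𝒱.Obj} (z : C.A X) : Prop := C.Deg X.dim z

variable (C) in
/-- The correspondences of codimension `i` from `Y` to `T` which factor through varieties of dimension at most two: sums
of compositions `Y → B → T` with `dim B ≤ 2`. -/
noncomputable def throughSurfaces (Y T : 𝒱.Obj) (i : ℤ) : Submodule ℚ (C.A (Y.prod T)) :=
  Submodule.span ℚ {Γ | ∃ (B : 𝒱.Obj) (j : ℤ) (α : C.A (Y.prod B)) (β : C.A (B.prod T)), B.dim ≤ 2 ∧ C.Deg j α ∧
    C.Deg (i + B.dim - j) β ∧ Γ = C.comp α β}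

/-- The cycles with property `S` on `W` are supported on a surface: for a self-correspondence `κ` of `W` of degree zero
which factors through varieties of dimension at most two, every such `u` is equal to `κ_* u`. -/
def OnSurface {W : 𝒱.Obj} (S : C.A W → Prop) : Prop :=
  ∃ κ ∈ throughSurfaces C W W W.dim, ∀ u, S u → u = C.act κ u

/-- The map `f : Y ⟶ W` is surjective: the push-forward of some class `c` on `Y` is a nonzero multiple of the class of `W`. -/
def IsOnto (C : TheoryData.{u, v, 0} 𝒱 ℚ) {Y W : 𝒱.Obj} (f : Y ⟶ W) : Prop :=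
  ∃ (c : C.A Y) (q : ℚ), C.Deg ((Y.dim : ℤ) - W.dim) c ∧ q ≠ 0 ∧ C.down f c = q • (1 : C.A W)

variable {K : Type w} [Field K] (H : WeilTheoryData.{u, v, w} C K)

/-- The class `z` of codimension `i` on `X` is homologically trivial. For `i = dim X` these are the zero-cycles of degree
zero. -/
def IsHomTrivial {X : 𝒱.Obj} (i : ℤ) (z : C.A X) : Prop := C.Deg i z ∧ H.cl z = 0

/-- The class `z` of codimension `i` on `X` is algebraically trivial: it is a sum of classes `Γ_* c` for zero-cycles `c` of
degree zero on curves `T` and `Γ` in `CH^i(T × X)`. -/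
def IsAlgTrivial {X : 𝒱.Obj} (i : ℤ) (z : C.A X) : Prop :=
  z ∈ Submodule.span ℚ {y | ∃ (T : 𝒱.Obj) (c : C.A T) (Γ : C.A (T.prod X)), T.dim = 1 ∧ IsHomTrivial H 1 c ∧
    C.Deg i Γ ∧ y = C.act Γ c}

/-- Known facts on the Chow groups of varieties over the complex numbers: the principle of Bloch and Srinivas; the
zero-cycles of a product are sums of external products; homologically trivial divisors and zero-cycles are
algebraically trivial; algebraically trivial self-correspondences of degree zero are nilpotent (a consequence of the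
theorem of Voevodsky and Voisin that algebraically trivial cycles are smash nilpotent). -/
structure KnownFacts : Prop where
  blochSrinivas : BlochSrinivas C
  points : ∀ (X Y : 𝒱.Obj) (z : C.A (X.prod Y)), IsZeroCycle z → IsSplit (X.prod Y).dim z
  trivial : ∀ (D : 𝒱.Obj) (i : ℤ) (d : C.A D), i = 1 ∨ i = D.dim → IsHomTrivial H i d → IsAlgTrivial H i d
  nilpotent : ∀ (X : 𝒱.Obj) (f : C.A (X.prod X)), IsAlgTrivial H X.dim f → IsNilp f

/-! ### The parts of the theorem -/

/-- (A) For the surface `X` the eight statements are equivalent: (1) every zero-cycle of degree zero vanishes; (2) the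
diagonal is a sum of external products; (3) `z × z = 0` for all `z` of degree zero; (4) `(x, x) + (y, y) = (x, y) + (y, x)`
for all points; (5) the `z × z` are supported on a surface; (6) the zero-cycles `u + τ_* u` of the symmetric square are;
(7) all zero-cycles of `X × X` are; (8) the zero-cycles of some variety which maps onto `X × X` are. -/
def BlochEquivalences (X : 𝒱.Obj) : Prop :=
  [∀ z : C.A X, IsHomTrivial H X.dim z → z = 0, IsSplit 2 (dg C X),
    ∀ z : C.A X, IsHomTrivial H X.dim z → cross z z = 0,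
    ∀ u : C.A (X.prod X), IsZeroCycle u → differenceSquare u = 0,
    OnSurface fun v => ∃ z : C.A X, IsHomTrivial H X.dim z ∧ v = cross z z,
    OnSurface fun v => ∃ u : C.A (X.prod X), IsZeroCycle u ∧ v = u + exchange u,
    OnSurface fun v : C.A (X.prod X) => IsZeroCycle v,
    ∃ (Y : 𝒱.Obj) (f : Y ⟶ X.prod X), IsOnto C f ∧ OnSurface fun v : C.A Y => IsZeroCycle v].TFAE

/-- (B) If the cycles `z × w - w × z`, for `z`, `w` of degree zero, are supported on a surface, then all classes in
`CH^2(X × X)` are symmetric modulo sums of external products and algebraically trivial classes. -/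
def CommutatorLaw (X : 𝒱.Obj) : Prop :=
  (OnSurface fun v => ∃ z w : C.A X, IsHomTrivial H X.dim z ∧ IsHomTrivial H X.dim w ∧ v = cross z w - cross w z) →
    ∀ Γ : C.A (X.prod X), C.Deg 2 Γ → ∃ s : C.A (X.prod X), IsSplit 2 s ∧ IsAlgTrivial H 2 (Γ - tp C Γ - s)

/-- The composition of `f^2`, of `Γ` and of the transpose of `g^2`. -/
noncomputable def sandwich {X Y : 𝒱.Obj} (f : C.A (X.prod X)) (g : C.A (Y.prod Y)) (Γ : C.A (X.prod Y)) : C.A (X.prod Y) :=
  C.comp (C.comp (power f 2) Γ) (tp C (power g 2))

/-- (C) For the self-correspondence `f` of the surface `X` and `ε = 1` or `ε = -1`: if the cycles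
`f_* z × f_* w + ε f_* w × f_* z` are supported on a surface, then the composition of `f^2`, `Γ + ε Γ^t` and the transpose of
`f^2` is algebraically trivial for all `Γ` in `CH^2(X × X)`; if `ε = 1`, then the composition of `f^2` and its transpose is
nilpotent, and `f` is nilpotent if it is symmetric. -/
def SquareLaw {X : 𝒱.Obj} (f : C.A (X.prod X)) (ε : ℚ) : Prop :=
  (OnSurface fun v => ∃ z w : C.A X, IsZeroCycle z ∧ IsZeroCycle w ∧
    v = cross (C.act f z) (C.act f w) + ε • cross (C.act f w) (C.act f z)) →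
    (∀ Γ : C.A (X.prod X), C.Deg 2 Γ → IsAlgTrivial H 2 (sandwich f f (Γ + ε • tp C Γ))) ∧
    (ε = 1 → IsNilp (sandwich f f (dg C X)) ∧ (tp C f = f → IsNilp f))

/-- (D) For the self-correspondences `f` of `X` and `g` of `Y`: if the cycles `f_* z × g_* w` are supported on a surface,
then the composition of `f^2`, `Γ` and the transpose of `g^2` is algebraically trivial for all `Γ` in `CH^2(X × Y)`. -/
def PairLaw {X Y : 𝒱.Obj} (f : C.A (X.prod X)) (g : C.A (Y.prod Y)) : Prop :=
  (OnSurface fun v => ∃ (z : C.A X) (w : C.A Y), IsZeroCycle z ∧ IsZeroCycle w ∧ v = cross (C.act f z) (C.act g w)) →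
    ∀ Γ : C.A (X.prod Y), C.Deg 2 Γ → IsAlgTrivial H 2 (sandwich f g Γ)

end Pool.Agent.Q56.SQ
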