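import Pool.Agent.Q56.SQ.Alg

/-!
# Squares of zero-cycles: proofs
-/

open CategoryTheory AlgebraicGeometry

universe u v w

namespace Pool.Agent.Q56.SQ

open Pool.Agent.H914 Pool.Agent.H914.VarClass Pool.Agent.H914.VarClass.Obj Pool.Agent.W492.BB
  Pool.Agent.W550.Corr Pool.Agent.TH133 Pool.Agent.Q28.LF Pool.Agent.Q28.HD

set_option linter.unusedSectionVars false

variable {k : Type u} [Field k] {𝒱 : VarClass k} {C : TheoryData.{u, v, 0} 𝒱 ℚ}
  [hC : IsChowProj C] {X Y Z W T B D V : 𝒱.Obj} {i j l : ℤ}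
  {K : Type w} [Field K] {H : WeilTheoryData.{u, v, w} C K} [hH : IsWeilProj H]

/-! ### Powers -/

lemma comp_power (f : C.A (X.prod X)) (m : ℕ) : C.comp f (power f m) = power f (m + 1) := by
  induction m with
  | zero => rw [power, power, power, comp_dg, dg_comp]
  | succ m ih => rw [power, ← comp_assoc, ih]; rfl

lemma tp_power (f : C.A (X.prod X)) (m : ℕ) : tp C (power f m) = power (tp C f) m := by
  induction m with
  | zero => exact tp_dg C X
  | succ m ih => rw [power, tp_comp C (ch_comm C), ih, comp_power]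

lemma power_power (f : C.A (X.prod X)) (m n : ℕ) : C.comp (power f m) (power f n) = power f (m + n) := by
  induction n with
  | zero => exact comp_dg C _
  | succ n ih => rw [power, ← comp_assoc, ih]; rfl

lemma power_mul (f : C.A (X.prod X)) (m n : ℕ) : power (power f m) n = power f (m * n) := by
  induction n with
  | zero => rfl
  | succ n ih => rw [power, ih, power_power, Nat.mul_succ]

lemma power_smul (q : ℚ) (f : C.A (X.prod X)) (n : ℕ) : power (q • f) n = q ^ n • power f n := by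
  induction n with
  | zero => rw [pow_zero, one_smul]; rfl
  | succ n ih => rw [power, ih, comp_smul', smul_comp', smul_smul, power, pow_succ, mul_comm q]

lemma unip_power {f : C.A (X.prod X)} (h : Unip f) (m : ℕ) : Unip (power f m) := by
  induction m with
  | zero =>
    rw [Unip, power, sub_self]
    exact Submodule.zero_mem _
  | succ m ih => exact ih.comp h

/-! ### Correspondences through surfaces -/

lemma through_left {m : ℤ} {F : C.A (V.prod W)} (hF : F ∈ C.gr (V.prod W) m) {κ : C.A (W.prod T)}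
    (hκ : κ ∈ throughSurfaces C W T i) : C.comp F κ ∈ throughSurfaces C V T (m + i - W.dim) := by
  refine through_induction (P := fun κ => C.comp F κ ∈ throughSurfaces C V T (m + i - W.dim)) hκ ?_ ?_ ?_
    fun B j α β hB hα hβ => ?_
  · rw [comp_zero]; exact Submodule.zero_mem _
  · intro x y hx hy; rw [comp_add]; exact Submodule.add_mem _ hx hy
  · intro q x hx; rw [comp_smul']; exact Submodule.smul_mem _ _ hx
  · rw [← comp_assoc]
    refine mem_through (j := m + j - W.dim) hB (comp_memI hF hα) ?_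
    have e : m + i - (W.dim : ℤ) + B.dim - (m + j - W.dim) = i + B.dim - j := by ring
    rwa [e]

lemma through_right {m : ℤ} {G : C.A (T.prod V)} (hG : G ∈ C.gr (T.prod V) m) {κ : C.A (W.prod T)}
    (hκ : κ ∈ throughSurfaces C W T i) : C.comp κ G ∈ throughSurfaces C W V (i + m - T.dim) := by
  refine through_induction (P := fun κ => C.comp κ G ∈ throughSurfaces C W V (i + m - T.dim)) hκ ?_ ?_ ?_
    fun B j α β hB hα hβ => ?_
  · rw [zero_comp]; exact Submodule.zero_mem _
  · intro x y hx hy; rw [add_comp]; exact Submodule.add_mem _ hx hy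
  · intro q x hx; rw [smul_comp']; exact Submodule.smul_mem _ _ hx
  · rw [comp_assoc]
    refine mem_through (j := j) hB hα ?_
    have := comp_memI hβ hG
    have e : i + (m : ℤ) - T.dim + B.dim - j = i + B.dim - j + m - T.dim := by ring
    rwa [e]

lemma graph_mem (f : X ⟶ Y) : C.graph f ∈ C.gr (X.prod Y) Y.dim := by
  have h := C.push_mem (Obj.lift (𝟙 X) f) (C.one_mem X)
  have e1 : (0 : ℤ) + 1 * (((X.prod Y).dim : ℤ) - (X.dim : ℤ)) = Y.dim := by
    rw [dim_prod]; push_cast; ring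
  rwa [e1] at h

lemma cograph_mem (f : X ⟶ Y) : C.cograph f ∈ C.gr (Y.prod X) Y.dim := by
  have h := C.push_mem (Obj.lift f (𝟙 X)) (C.one_mem X)
  have e1 : (0 : ℤ) + 1 * (((Y.prod X).dim : ℤ) - (X.dim : ℤ)) = Y.dim := by
    rw [dim_prod]; push_cast; ring
  rwa [e1] at h

lemma mulCorr_mem {c : C.A X} {e : ℤ} (hc : c ∈ C.gr X e) : C.mulCorr c ∈ C.gr (X.prod X) (e + X.dim) := by
  have h := C.push_mem (Obj.lift (𝟙 X) (𝟙 X)) hc
  have e1 : e + 1 * (((X.prod X).dim : ℤ) - (X.dim : ℤ)) = e + X.dim := by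
    rw [dim_prod]; push_cast; ring
  rwa [e1] at h

/-- If `Y` maps onto `W` and `CH_0(Y)` is supported on a surface, so is `CH_0(W)`. -/
theorem supported_of_onto {f : Y ⟶ W} (hf : IsOnto C f) (hY : OnSurface fun v : C.A Y => IsZeroCycle v) :
    OnSurface fun v : C.A W => IsZeroCycle v := by
  obtain ⟨c, q, hc, hq, hfc⟩ := hf
  obtain ⟨κ, hκ, h⟩ := hY
  have hc' : c ∈ C.gr Y ((Y.dim : ℤ) - W.dim) := hc
  have hfc' : C.push f c = q • (1 : C.A W) := hfc
  have hF := comp_memI (cograph_mem (C := C) f) (mulCorr_mem hc')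
  have e1 : (W.dim : ℤ) + (Y.dim - W.dim + Y.dim) - Y.dim = Y.dim := by ring
  rw [e1] at hF
  have h1 := through_right (graph_mem f) (through_left hF hκ)
  have e2 : (Y.dim : ℤ) + Y.dim - Y.dim + W.dim - Y.dim = W.dim := by ring
  rw [e2] at h1
  refine ⟨q⁻¹ • _, Submodule.smul_mem _ q⁻¹ h1, fun u hu => ?_⟩
  have h2 : c * C.pull f u ∈ C.gr Y Y.dim := by
    have := C.mul_mem hc' (C.pull_mem f hu)
    have e : (Y.dim : ℤ) - W.dim + W.dim = Y.dim := by ring
    rwa [e] at this
  rw [Pool.Agent.Q28.LF.act_smul', C.act_comp, C.act_comp, C.act_comp, C.act_cograph, C.act_mulCorr, C.act_graph, ← h _ h2,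
    C.proj_right, hfc', smul_mul_assoc, one_mul, smul_smul, inv_mul_cancel₀ hq, one_smul]

/-! ### The pair version -/

lemma act_tens_tp (f : C.A (X.prod Z)) (g : C.A (Y.prod W)) (γ : C.A (Z.prod W)) :
    C.act (tp C (tens C f g)) γ = C.comp (C.comp f γ) (tp C g) := by
  rw [tp_tens, act_tens C (ch_comm C), tp_tp]

lemma tens_self_mem {f : C.A (X.prod X)} {g : C.A (Y.prod Y)} (hf : f ∈ C.gr (X.prod X) X.dim)
    (hg : g ∈ C.gr (Y.prod Y) Y.dim) : tens C f g ∈ C.gr ((X.prod Y).prod (X.prod Y)) (X.prod Y).dim := by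
  have := tens_mem C hf hg
  rw [dim_prod]; push_cast; exact this

lemma cl_tens0 {f : C.A (X.prod X)} (g : C.A (Y.prod Y)) (h0 : H.cl f = 0) : H.cl (tens C f g) = 0 := by
  rw [cl_tens, h0]
  rw [tens, map_zero, zero_mul]

lemma act_tens_ext' (f : C.A (X.prod Z)) (g : C.A (Y.prod W)) (x : C.A X) (y : C.A Y) :
    C.act (tens C f g) (C.ext x y) = C.ext (C.act f x) (C.act g y) := by
  apply act_tens_ext
  intro V f c
  exact ch_comm C _ _

lemma gr_top_points (hX : KnownFacts H) {P : C.A (X.prod Y) → Prop} (h0 : P 0) (hadd : ∀ x y, P x → P y → P (x + y))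
    (hsmul : ∀ (q : ℚ) x, P x → P (q • x))
    (hext : ∀ (x : C.A X) (y : C.A Y), x ∈ C.gr X X.dim → y ∈ C.gr Y Y.dim → P (C.ext x y)) {z : C.A (X.prod Y)}
    (hz : z ∈ C.gr (X.prod Y) (X.prod Y).dim) : P z := by
  have h1 := hX.points X Y z hz
  clear hz
  rw [IsSplit, split] at h1
  induction h1 using Submodule.span_induction with
  | mem x hx =>
    obtain ⟨j, a, b, ha, hb, rfl⟩ := hx
    have ha' : a ∈ C.gr X j := ha
    have hb' : b ∈ C.gr Y (((X.prod Y).dim : ℕ) - j) := hb
    rw [dim_prod] at hb'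
    push_cast at hb'
    rcases lt_trichotomy j X.dim with h | h | h
    · have : b = 0 := hC.gr_top _ _ _ hb' (by omega)
      change P (C.mul _ (C.pull _ b))
      rw [this, map_zero, TheoryData.mul, mul_zero]
      exact h0
    · rw [h] at ha' hb'
      have e : (X.dim : ℤ) + Y.dim - X.dim = Y.dim := by ring
      rw [e] at hb'
      exact hext a b ha' hb'
    · have : a = 0 := hC.gr_top _ _ _ ha' h
      change P (C.mul (C.pull _ a) _)
      rw [this, map_zero, TheoryData.mul, zero_mul]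
      exact h0
  | zero => exact h0
  | add x y _ _ hx hy => exact hadd x y hx hy
  | smul q x _ hx => exact hsmul q x hx

/-- Correspondences which agree on external products of zero-cycles agree on zero-cycles. -/
lemma agree (hX : KnownFacts H) {F κ : C.A ((X.prod Y).prod (X.prod Y))}
    (h : ∀ (x : C.A X) (y : C.A Y), x ∈ C.gr X X.dim → y ∈ C.gr Y Y.dim →
      C.act F (C.ext x y) = C.act κ (C.ext x y)) {u : C.A (X.prod Y)} (hu : u ∈ C.gr (X.prod Y) (X.prod Y).dim) :
    C.act F u = C.act κ u := by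
  refine gr_top_points hX (P := fun z => C.act F z = C.act κ z) ?_ ?_ ?_ h hu
  · rw [C.act_map_zero, C.act_map_zero]
  · intro x y hx hy; rw [act_map_add, act_map_add, hx, hy]
  · intro q x hx; rw [act_map_smul, act_map_smul, hx]

/-- **Pairs.** -/
theorem pair (hK : KnownFacts H) {f : C.A (X.prod X)} {g : C.A (Y.prod Y)}
    (hf : f ∈ C.gr (X.prod X) X.dim) (hg : g ∈ C.gr (Y.prod Y) Y.dim) (h0 : H.cl f = 0)
    {κ : C.A ((X.prod Y).prod (X.prod Y))} (hκ : κ ∈ throughSurfaces C (X.prod Y) (X.prod Y) (X.prod Y).dim)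
    (hz : ∀ (z : C.A X) (w : C.A Y), z ∈ C.gr X X.dim → w ∈ C.gr Y Y.dim →
      C.ext (C.act f z) (C.act g w) = C.act κ (C.ext z w)) {γ : C.A (X.prod Y)}
    (hγ : γ ∈ C.gr (X.prod Y) 2) :
    C.comp (C.comp (power f 2) γ) (tp C (power g 2)) ∈ algTrivial H (X.prod Y) 2 := by
  have hF := tens_self_mem hf hg
  have h1 : C.act (tp C (tens C f g)) γ ∈ C.gr (X.prod Y) 2 := act_mem0 C (tp_mem C hF) hγ
  have h2 := key hK hF hκ (fun u hu => agree hK (fun x y hx hy => by
    rw [act_tens_ext']; exact hz x y hx hy) hu) h1 (cl_act0 (cl_tp0 (cl_tens0 g h0)) γ)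
  have h3 : C.comp (C.comp (power f 2) γ) (tp C (power g 2)) =
      C.act (tp C (tens C f g)) (C.act (tp C (tens C f g)) γ) := by
    rw [act_tens_tp, act_tens_tp, tp_power]
    have e1 : power f 2 = C.comp f f := by rw [power, power, power, dg_comp]
    have e2 : power (tp C g) 2 = C.comp (tp C g) (tp C g) := by rw [power, power, power, dg_comp]
    rw [e1, e2]
    simp only [comp_assoc]
  rw [h3]; exact h2

/-! ### The symmetric and the alternating version -/

variable (C) in
/-- `z × w ↦ f_* z × f_* w + ε f_* w × f_* z` -/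
noncomputable def signSq (ε : ℚ) {X : 𝒱.Obj} (f : C.A (X.prod X)) : C.A ((X.prod X).prod (X.prod X)) :=
  C.comp (X := X.prod X) (Y := X.prod X) (Z := X.prod X) (tens C f f) (dg C (X.prod X) + ε • C.graph (sw X X))

lemma act_signSq (ε : ℚ) (f : C.A (X.prod X)) (u : C.A (X.prod X)) :
    C.act (signSq C ε f) u = C.act (tens C f f) u + ε • tp C (C.act (tens C f f) u) := by
  rw [signSq, C.act_comp, C.act_add, act_dg, Pool.Agent.Q28.LF.act_smul', C.act_graph, tp_eq_push]

lemma act_tp_signSq (ε : ℚ) (f γ : C.A (X.prod X)) :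
    C.act (tp C (signSq C ε f)) γ = C.comp (C.comp f (γ + ε • tp C γ)) (tp C f) := by
  have h1 : tp C (signSq C ε f) = C.comp (X := X.prod X) (Y := X.prod X) (Z := X.prod X)
      (dg C (X.prod X) + ε • tp C (C.graph (sw X X))) (tp C (tens C f f)) := by
    rw [signSq, tp_comp C (ch_comm C), tp_add, tp_dg, tp_smul]
  rw [h1, C.act_comp, C.act_add, act_dg, Pool.Agent.Q28.LF.act_smul', act_tp_graph, act_tens_tp]
  rfl

lemma signSq_mem (ε : ℚ) {f : C.A (X.prod X)} (hf : f ∈ C.gr (X.prod X) X.dim) :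
    signSq C ε f ∈ C.gr ((X.prod X).prod (X.prod X)) (X.prod X).dim :=
  comp_mem0 C (tens_self_mem hf hf) (Submodule.add_mem _ (dg_mem C _) (Submodule.smul_mem _ _ (graph_mem _)))

lemma cl_signSq (ε : ℚ) {f : C.A (X.prod X)} (h0 : H.cl f = 0) : H.cl (signSq C ε f) = 0 :=
  cl_comp0 (cl_tens0 f h0) _

/-- conjugation of `s` by the powers of `f` -/
lemma iterate_signSq {ε : ℚ} (f : C.A (X.prod X)) {s : C.A (X.prod X)} (hε : ε * ε = 1) (hs : tp C s = ε • s) (n : ℕ) :
    (C.act (tp C (signSq C ε f)))^[n] s = ((2 : ℚ) ^ n) • C.comp (C.comp (power f n) s) (tp C (power f n)) := by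
  induction n with
  | zero => rw [Function.iterate_zero_apply, power, tp_dg, comp_dg, dg_comp, pow_zero, one_smul]
  | succ n ih =>
    have h1 : tp C (C.comp (C.comp (power f n) s) (tp C (power f n))) =
        ε • C.comp (C.comp (power f n) s) (tp C (power f n)) := by
      rw [tp_comp C (ch_comm C), tp_comp C (ch_comm C), tp_tp, hs, smul_comp', comp_smul', comp_assoc]
    have h2 : C.comp f (power f n) = power f (n + 1) := comp_power f n
    have h3 : C.comp (tp C (power f n)) (tp C f) = tp C (power f (n + 1)) := by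
      rw [← tp_comp C (ch_comm C), h2]
    have h4 : ε * (2 : ℚ) ^ n * ε = (2 : ℚ) ^ n := by linear_combination ((2 : ℚ) ^ n) * hε
    rw [Function.iterate_succ_apply', ih, act_tp_signSq, tp_smul, h1, smul_smul, smul_smul, h4,
      ← two_smul ℚ (((2 : ℚ) ^ n) • _), smul_smul, comp_smul', smul_comp', pow_succ, mul_comm (2 : ℚ)]
    congr 1
    rw [← h3, ← h2]
    simp only [comp_assoc]

/-- **Symmetric and alternating squares on a surface.** -/
theorem square (hK : KnownFacts H) (hX2 : X.dim = 2) {f : C.A (X.prod X)} (hf : f ∈ C.gr (X.prod X) 2)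
    (h0 : H.cl f = 0) {ε : ℚ} (hε : ε * ε = 1) {κ : C.A ((X.prod X).prod (X.prod X))}
    (hκ : κ ∈ throughSurfaces C (X.prod X) (X.prod X) 4)
    (hz : ∀ z w : C.A X, z ∈ C.gr X 2 → w ∈ C.gr X 2 →
      C.ext (C.act f z) (C.act f w) + ε • C.ext (C.act f w) (C.act f z) = C.act κ (C.ext z w)) {γ : C.A (X.prod X)}
    (hγ : γ ∈ C.gr (X.prod X) 2) :
    C.comp (C.comp (power f 2) (γ + ε • tp C γ)) (tp C (power f 2)) ∈ algTrivial H (X.prod X) 2 := by
  have e2 : ((X.dim : ℕ) : ℤ) = 2 := by rw [hX2]; rfl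
  have e4 : (((X.prod X).dim : ℕ) : ℤ) = 4 := by rw [dim_prod, hX2]; rfl
  rw [← e2] at hf
  rw [← e4] at hκ
  have hs : tp C (γ + ε • tp C γ) = ε • (γ + ε • tp C γ) := by
    rw [tp_add, tp_smul, tp_tp, smul_add, smul_smul, hε, one_smul, add_comm]
  have hm : γ + ε • tp C γ ∈ C.gr (X.prod X) 2 :=
    Submodule.add_mem _ hγ (Submodule.smul_mem _ _ (tp_mem C hγ))
  have hF := signSq_mem ε hf
  have h1 : C.act (tp C (signSq C ε f)) (γ + ε • tp C γ) ∈ C.gr (X.prod X) 2 := act_mem0 C (tp_mem C hF) hm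
  have h2 := key hK hF hκ (fun u hu => agree hK (fun x y hx hy => by
    rw [e2] at hx hy
    rw [act_signSq, act_tens_ext', tp_ext]
    exact hz x y hx hy) hu) h1 (cl_act0 (cl_tp0 (cl_signSq ε h0)) _)
  have h3 := iterate_signSq f hε hs 2
  rw [Function.iterate_succ_apply', Function.iterate_one] at h3
  rw [h3] at h2
  have h4 := Submodule.smul_mem _ ((2 : ℚ) ^ 2)⁻¹ h2
  rwa [smul_smul, inv_mul_cancel₀ (by norm_num), one_smul] at h4

/-- **Nilpotence.** -/
theorem square_nilpotent (hK : KnownFacts H) (hX2 : X.dim = 2) {f : C.A (X.prod X)} (hf : f ∈ C.gr (X.prod X) 2)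
    (h0 : H.cl f = 0) {κ : C.A ((X.prod X).prod (X.prod X))}
    (hκ : κ ∈ throughSurfaces C (X.prod X) (X.prod X) 4)
    (hz : ∀ z w : C.A X, z ∈ C.gr X 2 → w ∈ C.gr X 2 →
      C.ext (C.act f z) (C.act f w) + C.ext (C.act f w) (C.act f z) = C.act κ (C.ext z w)) :
    ∃ N, power (C.comp (power f 2) (tp C (power f 2))) N = 0 := by
  have e2 : ((X.dim : ℕ) : ℤ) = 2 := by rw [hX2]; rfl
  have h1 := square (ε := 1) hK hX2 hf h0 (by norm_num) hκ (fun z w hz' hw' => by
    rw [one_smul]; exact hz z w hz' hw') (γ := dg C X) (by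
      have := dg_mem C X
      rwa [e2] at this)
  rw [one_smul, tp_dg, ← two_smul ℚ (dg C X), comp_smul', comp_dg, smul_comp'] at h1
  have h2 := Submodule.smul_mem _ ((2 : ℚ))⁻¹ h1
  rw [smul_smul, inv_mul_cancel₀ (by norm_num), one_smul] at h2
  refine hK.nilpotent X _ ?_
  rwa [hX2]

/-- From squares to the symmetric bilinear version. -/
lemma polarize {f : C.A (X.prod X)} (hf : f ∈ C.gr (X.prod X) X.dim) (hX2 : X.dim = 2)
    {κ : C.A ((X.prod X).prod (X.prod X))} (hκ : κ ∈ throughSurfaces C (X.prod X) (X.prod X) 4)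
    (hz : ∀ z : C.A X, z ∈ C.gr X 2 →
      C.ext (C.act f z) (C.act f z) = C.act κ (C.ext (C.act f z) (C.act f z))) :
    ∃ κ' ∈ throughSurfaces C (X.prod X) (X.prod X) 4, ∀ z w : C.A X, z ∈ C.gr X 2 → w ∈ C.gr X 2 →
      C.ext (C.act f z) (C.act f w) + C.ext (C.act f w) (C.act f z) = C.act κ' (C.ext z w) := by
  have e4 : (((X.prod X).dim : ℕ) : ℤ) = 4 := by rw [dim_prod, hX2]; rfl
  have hS := signSq_mem 1 hf
  refine ⟨C.comp (signSq C 1 f) κ, ?_, fun x y hx hy => ?_⟩
  · rw [← e4] at hκ ⊢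
    exact through_after hS hκ
  · have hadd : ∀ a b c d : C.A X, C.ext (a + b) (c + d) = C.ext a c + C.ext b d + (C.ext a d + C.ext b c) := by
      intro a b c d
      simp only [TheoryData.ext, map_add, add_mul, mul_add]
      abel
    rw [C.act_comp, act_signSq, act_tens_ext', tp_ext, one_smul]
    have h1 := hz (x + y) (Submodule.add_mem _ hx hy)
    rw [act_map_add, hadd, act_map_add C κ, act_map_add C κ, ← hz x hx, ← hz y hy] at h1
    exact add_left_cancel h1

end Pool.Agent.Q56.SQ
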